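import Pool.Agent.W353.AT.Main

/-!
# Poles and zeros of the Artin twists of the L-function of a variety on the edge line

`X` is a smooth projective variety over a number field `K`, for example over `K = ℚ`, and `i` an
integer.  For a complex representation `ρ` of the absolute Galois group `G` of `K` that is trivial on
an open subgroup, `L(H^i(X) ⊗ ρ, s)` is the Euler product over the primes of `K` with the factors
`det(1 - Frob q_v^{-s} | H^i(X) ⊗ ρ)⁻¹`.  For the representation of `G` on the functions on the embeddings
of a number field `F ⊇ K` this is `L(H^i(X_F), s)`, the `L`-function of the variety `X_F` over `ℚ`.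
The theorem is about the poles and zeros on the line `Re s = i/2 + 1`, the boundary of the half plane
of absolute convergence.  Nothing is assumed about the automorphy of `H^i(X)`.
The definitions are in `Pool.Agent.W353.AT.Defs`, `Pool.Agent.W353.EH.Defs` and
`Pool.Agent.W353.EF.Defs`.
-/

set_option autoImplicit false

namespace Pool.Agent.Results.MP_039d94_nt.ArtinTwistsSupNorm

open NumberField

/-- **The orders of the Artin twists on the edge line form a bounded virtual character.**  Let `X` be a
projective variety of dimension `d` over a number field `K`, `0 ≤ i ≤ 2d` and `N` the `i`-th Betti number.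
Let `τ` be real, `s_τ = i/2 + 1 + iτ`, and let `ρ_k`, `k` in a finite set, be Artin representations that
are trivial on the open normal subgroup `U` of `G`, `χ_k` their characters, and
`x_k(ε) = log |L(H^i(X) ⊗ ρ_k, s_τ + ε)| / log(1/ε)`.  For a function `f` on `G / U` let `‖f‖` be the mean value
of `|Re f|` if `τ = 0`, and `2/π` times the mean value of `|f|` if `τ ≠ 0`.
* For real `c_k`, every `η > 0` and all small `ε > 0`, `|∑ c_k x_k(ε)| ≤ N ‖∑ c_k χ_k‖ + η` (no continuation
is assumed here).
* If there are meromorphic continuations to neighbourhoods of `s_τ`, with the orders `m_k` at `s_τ`, then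
`|∑ c_k m_k| ≤ N ‖∑ c_k χ_k‖`.
* If, moreover, the `ρ_k` are all irreducible representations of `G / U`, then the virtual character
`θ = ∑ m_k χ_k` satisfies `|θ(g)| ≤ N` for all `g ∈ G`, and `|θ(g)| ≤ 2N/π` if `τ ≠ 0`. -/
theorem result (K : Type) [Field K] [NumberField K] (n d i N : ℕ)
    (X : Set (MvPolynomial (Fin n) (𝓞 K))) (hi : i ≤ 2 * d) :
    Pool.Agent.W353.AT.EdgeSupNorm X d i N :=
  Pool.Agent.W353.AT.edgeSupNorm hi

end Pool.Agent.Results.MP_039d94_nt.ArtinTwistsSupNorm
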