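import Pool.Agent.TH375.ED.Var

/-!
# The edge densities of a variety

`X` is a smooth projective variety over a number field `K`, for example over `K = ℚ`, `i` an integer
and `N` the `i`-th Betti number; `G = Gal(K̄/K)` with its Haar probability measure `μ`.  For every number
field `F ⊇ K` the variety `X_F`, seen as a variety over `ℚ`, is smooth and projective, and
`L(H^i(X_F), s)` is an Euler product over the primes of `F`; for an Artin representation `χ` of `K` there
is the Euler product `L(H^i(X) ⊗ χ, s)` over the primes of `K`.  They converge for `Re s > i/2 + 1`.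
The theorem describes the growth of all these functions together at the points of the line
`Re s = i/2 + 1`, by one bounded measurable function on `G` for every height; no continuation and no
automorphy is assumed.
The definitions of the Euler products are in `Pool.Agent.W353.EF.Defs`, `Pool.Agent.W353.EH.Defs` and
`Pool.Agent.W353.AT.Defs`.
-/

set_option autoImplicit false

namespace Pool.Agent.Results.MP_039d94_nt.EdgeDensity

open Complex Filter Topology NumberField IsDedekindDomain Polynomial MeasureTheory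
open Pool.Agent.W353.EH (IsEulerSystem size HasOrder edgePoint)
open Pool.Agent.W353.AT (IsArtin IsTwistedSystem)

section
variable {K : Type} [Field K] [NumberField K] {l : ℕ}

/-- The mean value of `θ` over the absolute Galois group `Gal(K̄/F)` of the field `F`. -/
noncomputable def meanOver [MeasurableSpace Gal(AlgebraicClosure K/K)]
    (μ : Measure Gal(AlgebraicClosure K/K)) (θ : Gal(AlgebraicClosure K/K) → ℝ)
    (F : IntermediateField K (AlgebraicClosure K)) : ℝ :=
  ⨍ g in (F.fixingSubgroup : Set Gal(AlgebraicClosure K/K)), θ g ∂μ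

/-- `θ` is the density of the edge of `H^i(X)` at the height `t` along the sequence `e`.
* For all number fields `F`, `K ⊆ F ⊆ K̄`, of arbitrary degree,
`log |L(H^i(X_F), i/2 + 1 + it + ε)| / log(1/ε)` tends along the sequence to the mean value of `θ` over
`Gal(K̄/F)`; if there is a meromorphic continuation of order `m` at `i/2 + 1 + it`, then the mean value is
`-m`.
* For all Artin representations `χ` of `K`, with the mean value of the quotients for
`L(H^i(X) ⊗ χ, s)` at the two heights `t` and `-t` the limit is `∫ θ Re χ`; if there are continuations,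
with the orders `m` and `m'`, then the integral is `-(m + m') / 2`. -/
def IsEdgeDensity [MeasurableSpace Gal(AlgebraicClosure K/K)]
    (μ : Measure Gal(AlgebraicClosure K/K)) (X : Set (MvPolynomial (Fin l) (𝓞 K))) (d i N : ℕ)
    (t : ℝ) (e : ℕ → ℝ) (θ : Gal(AlgebraicClosure K/K) → ℝ) : Prop :=
  (∀ (F : IntermediateField K (AlgebraicClosure K)) [NumberField F]
    (B : HeightOneSpectrum (𝓞 F) → ℂ[X]), IsEulerSystem X d i N t B →
    Tendsto (fun j => size i t B (e j)) atTop (𝓝 (meanOver μ θ F)) ∧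
    ∀ m : ℤ, HasOrder i t B m → meanOver μ θ F = -m) ∧
  (∀ (n : ℕ) (χ : Representation ℂ Gal(AlgebraicClosure K/K) (Fin n → ℂ)), IsArtin χ →
    ∀ B : HeightOneSpectrum (𝓞 K) → ℂ[X], IsTwistedSystem X d i N χ t B →
    IsTwistedSystem X d i N χ (-t) B →
    Tendsto (fun j => (size i t B (e j) + size i (-t) B (e j)) / 2)
      atTop (𝓝 (∫ g, θ g * (χ.character g).re ∂μ)) ∧
    ∀ m m' : ℤ, HasOrder i t B m → HasOrder i (-t) B m' →
      ∫ g, θ g * (χ.character g).re ∂μ = -((m + m') / 2 : ℝ))

open Classical in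
/-- **The edge densities.**  Let `X` be a projective variety of dimension `d` over the number field
`K`, `0 ≤ i ≤ 2d`, `N` the `i`-th Betti number and `τ_0, τ_1, …` distinct non-negative real numbers.
Every sequence `e_j → 0+` has a subsequence with densities `θ_k : Gal(K̄/K) → ℝ` at all heights
`t = ± τ_k`: measurable functions with `θ_k(h g h⁻¹) = θ_k(g) = θ_k(g⁻¹)`, whose mean values over
`Gal(K̄/F)` are the limits of `log |L(H^i(X_F), i/2 + 1 + it + ε)| / log(1/ε)` for all number fields
`F ⊇ K`, and whose integrals `∫ θ_k Re χ` are the limits for the twists by all Artin representations `χ`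
of `K`.  The densities satisfy `|θ_k| ≤ N`, even `|θ_k| ≤ 2N/π` if `τ_k ≠ 0`, and
`∑_k w_k ∫ θ_k² ≤ N²` with `w_k = 2`, and `w_k = 1` if `τ_k = 0`.  For all `c` and `η > 0` there is one
finite Galois extension `M` of `K` such that, for all heights, the limits over `F` and over `F ∩ M`
differ by less than `η` for all number fields `F ⊇ K` of degree `≤ c`. -/
theorem result (K : Type) [Field K] [NumberField K] (l : ℕ)
    (X : Set (MvPolynomial (Fin l) (𝓞 K))) (d i N : ℕ) (hi : i ≤ 2 * d)
    [MeasurableSpace Gal(AlgebraicClosure K/K)] [BorelSpace Gal(AlgebraicClosure K/K)]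
    (μ : Measure Gal(AlgebraicClosure K/K)) [μ.IsHaarMeasure] [IsProbabilityMeasure μ]
    (τ : ℕ → ℝ) (hτ0 : ∀ k, 0 ≤ τ k) (hτ : Function.Injective τ)
    (e : ℕ → ℝ) (he : Tendsto e atTop (𝓝[>] 0)) :
    ∃ φ : ℕ → ℕ, StrictMono φ ∧ ∃ θ : ℕ → Gal(AlgebraicClosure K/K) → ℝ,
      (∀ k, Measurable (θ k) ∧ (∀ g, |θ k g| ≤ if τ k = 0 then (N : ℝ) else 2 * N / Real.pi) ∧
        (∀ g h, θ k (h * g * h⁻¹) = θ k g) ∧ (∀ g, θ k g⁻¹ = θ k g) ∧
        ∀ t : ℝ, |t| = τ k → IsEdgeDensity μ X d i N t (fun j => e (φ j)) (θ k)) ∧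
      (∀ S : Finset ℕ, ∑ k ∈ S, (if τ k = 0 then 1 else 2) * ∫ g, θ k g ^ 2 ∂μ ≤ (N : ℝ) ^ 2) ∧
      ∀ (c : ℕ) (η : ℝ), 0 < η → ∃ M : IntermediateField K (AlgebraicClosure K),
        FiniteDimensional K M ∧ IsGalois K M ∧
        ∀ (k : ℕ) (F : IntermediateField K (AlgebraicClosure K)) [NumberField F],
          Module.finrank K F ≤ c → |meanOver μ (θ k) F - meanOver μ (θ k) (F ⊓ M)| < η := by
  obtain ⟨φ, hφ, θ, h1, h5, h6, h7⟩ :=
    Pool.Agent.TH375.ED.var_densities μ (X := X) (d := d) (i := i) (N := N) hi hτ0 hτ he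
  have hz : Tendsto (fun j => e (φ j)) atTop (𝓝[>] 0) := he.comp hφ.tendsto_atTop
  have hlim : ∀ (F : Type) [Field F] [NumberField F] (B : HeightOneSpectrum (𝓞 F) → ℂ[X])
      (t : ℝ) (m : ℤ),
      (∀ᶠ ε : ℝ in 𝓝[>] 0, Pool.Agent.W353.EF.LFun B (edgePoint i t + ε) ≠ 0) →
      HasOrder i t B m → Tendsto (fun j => size i t B (e (φ j))) atTop (𝓝 (-(m : ℝ))) := by
    rintro F _ _ B t m hne ⟨Λ, hm1, hm2, hm3⟩
    exact (Pool.Agent.W353.PV.lim_ord hne hm1 (hm2.mono fun s hs hs' => hs (by
      rw [Pool.Agent.W353.AT.edge_re] at hs'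
      exact hs')) hm3).comp hz
  refine ⟨φ, hφ, θ, fun k => ⟨(h1 k).1, fun g => ?_, (h1 k).2.2.1, (h1 k).2.2.2, fun t ht =>
    ⟨fun F _ B hB => ?_, fun n χ hχ B hB hB' => ?_⟩⟩, fun S => ?_, h7⟩
  · refine ((h1 k).2.1 g).trans (le_of_eq ?_)
    unfold Pool.Agent.TH375.ED.cst
    split_ifs
    · rfl
    · ring
  · obtain ⟨h8, h9⟩ := (h5 k t ht).1 F B hB
    refine ⟨h9, fun m hm => ?_⟩
    exact tendsto_nhds_unique h9 (hlim F B t m h8 hm)
  · obtain ⟨⟨h8, h8'⟩, h9⟩ := (h5 k t ht).2 n χ hχ B hB hB'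
    refine ⟨h9, fun m m' hm hm' => ?_⟩
    have h10 := hlim K B t m h8 hm
    have h11 := hlim K B (-t) m' h8' hm'
    rw [tendsto_nhds_unique h9 ((h10.add h11).div_const 2)]
    ring
  · refine le_trans (le_of_eq ?_) (h6 S)
    refine Finset.sum_congr rfl fun k _ => ?_
    unfold Pool.Agent.TH375.ED.wt
    split_ifs <;> rfl

end

end Pool.Agent.Results.MP_039d94_nt.EdgeDensity
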