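import Pool.Agent.TH270.SH.Glue
import Pool.Agent.TH652.COL.NF

/-!
# Zero-free continuation of `L(H^i(X), s)` in terms of the numbers of points: all varieties

`X` is a projective variety of dimension `d` over a number field `K`, given by homogeneous polynomials
over `𝓞 K`, `B_v` are the Euler factors of `L(H^i(X), s)`: for almost all primes `v` the polynomial
`∏ (1 - α_j z)` of the eigenvalues of Frobenius on `H^i`, which are determined by the numbers of points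
of `X` over the finite extensions of the residue field, and at the other primes arbitrary real
polynomials with constant term `1` whose roots have absolute values `≥ q_v^{-i/2}`. Let `c` be a real
number, `c ≥ (i+1)/2`, and for `ρ' > ρ > 1`

`S_ρ(X) = ∑_{q_v ≤ exp ((log X)^ρ')} w_ρ(log q_v / log X) log B_v(q_v^{-c})`,

a finite sum, with `w_ρ(u) = (2π)⁻¹ ∫ Re (exp (z - u z^(1/ρ)) / z) dt`, `z = 1 + i t`. It is shown that:

* `L(H^i(X), s)` has a holomorphic continuation without zeros to the sector `|arg (s - c)| < π / (2ρ)` if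
  and only if `S_ρ(X) = O(exp (ε (log X)^ρ))` for all `ε > 0`;
* it has a holomorphic continuation without zeros to the half plane `Re s > c` if and only if this holds
  for all `ρ' > ρ > 1`;
* if `S_ρ(X) = m log log X + O(1)`, `m` real, then the continuation to the sector has the order of
  magnitude `x^m` at `s = c + x`, `x → 0+`.

Nothing is assumed on the continuation or on the growth of the `L`-function.
-/

set_option autoImplicit false

open Filter Topology NumberField IsDedekindDomain Polynomial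

namespace Pool.Agent.Results.MP_039d94_nt.SectorContinuation

open Pool.Agent.TH652.COL (IsEulerSystem IsFrobenius cone)

section definitions

variable {K : Type} [Field K] [NumberField K]

/-- The norm `q_v` of a prime. -/
noncomputable def q (v : HeightOneSpectrum (𝓞 K)) : ℕ := Ideal.absNorm v.asIdeal

/-- All complex roots of all `B_v` have absolute value at least `q_v^{-i/2}`. For almost all `v` this
follows from `IsEulerSystem`; it is the purity of the Euler factors at the other primes. -/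
def IsPure (B : HeightOneSpectrum (𝓞 K) → ℝ[X]) (i : ℕ) : Prop :=
  ∀ v, ∀ ρ : ℂ, ((B v).map (algebraMap ℝ ℂ)).IsRoot ρ → (q v : ℝ) ^ (-((i : ℝ) / 2)) ≤ ‖ρ‖

/-- The `L`-function, the product of the `B_v(q_v^{-s})⁻¹`; it is used for `Re s > i/2 + 1`, where the
product converges absolutely. -/
noncomputable def L (B : HeightOneSpectrum (𝓞 K) → ℝ[X]) (s : ℂ) : ℂ :=
  ∏' v : HeightOneSpectrum (𝓞 K), (((B v).map (algebraMap ℝ ℂ)).eval ((q v : ℂ) ^ (-s)))⁻¹

/-- The weight `w_ρ(u) = (2π)⁻¹ ∫ Re (exp (z - u z^(1/ρ)) / z) dt`, `z = 1 + i t`. -/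
noncomputable def weight (ρ u : ℝ) : ℝ :=
  (2 * Real.pi)⁻¹ * ∫ t : ℝ, (Complex.exp ((1 + t * Complex.I) -
    u * (1 + t * Complex.I) ^ ((ρ⁻¹ : ℝ) : ℂ)) / (1 + t * Complex.I)).re

/-- `S_ρ(X)`: the sum over the primes with `q_v ≤ exp ((log X)^ρ')` of
`w_ρ(log q_v / log X) log B_v(q_v^{-c})`. -/
noncomputable def localSum (B : HeightOneSpectrum (𝓞 K) → ℝ[X]) (c ρ ρ' X : ℝ) : ℝ :=
  ∑ᶠ (v : HeightOneSpectrum (𝓞 K)) (_ : (q v : ℝ) ≤ Real.exp (Real.log X ^ ρ')),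
    weight ρ (Real.log (q v) / Real.log X) * Real.log ((B v).eval ((q v : ℝ) ^ (-c)))

/-- `S_ρ(X) = O(exp (ε (log X)^ρ))` for all `ε > 0`. -/
def SlowGrowth (B : HeightOneSpectrum (𝓞 K) → ℝ[X]) (c ρ ρ' : ℝ) : Prop :=
  ∀ ε : ℝ, 0 < ε → ∃ C : ℝ, ∀ᶠ X : ℝ in atTop,
    |localSum B c ρ ρ' X| ≤ C * Real.exp (ε * Real.log X ^ ρ)

/-- The sector `|arg (s - c)| < π / (2ρ)`. -/
def Sector (c ρ : ℝ) : Set ℂ := {s | s ≠ c ∧ |(s - c).arg| < Real.pi / (2 * ρ)}

/-- `G` is holomorphic and has no zeros on the union of `U` and the half plane `Re s > i/2 + 1`, where it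
is equal to `L`. -/
def ZeroFreeContinuation (B : HeightOneSpectrum (𝓞 K) → ℝ[X]) (i : ℕ) (U : Set ℂ) (G : ℂ → ℂ) : Prop :=
  (∀ s : ℂ, s ∈ U ∨ (i : ℝ) / 2 + 1 < s.re → DifferentiableAt ℂ G s ∧ G s ≠ 0) ∧
    ∀ s : ℂ, (i : ℝ) / 2 + 1 < s.re → G s = L B s

/-- `|G(c + x)| ≍ x^m` for `0 < x ≤ 1`. -/
def HasSize (G : ℂ → ℂ) (c m : ℝ) : Prop :=
  ∃ A₁ A₂ : ℝ, 0 < A₁ ∧ 0 < A₂ ∧ ∀ x : ℝ, 0 < x → x ≤ 1 →
    A₁ * x ^ m ≤ ‖G (c + x)‖ ∧ ‖G (c + x)‖ ≤ A₂ * x ^ m

end definitions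

section proofs

open Pool.Agent.TH270.SH Pool.Agent.TH942.ES
open Pool.Agent.TH942.SL (Sect sect_open sect_convex sect_real sect_re)

variable {K : Type} [Field K] [NumberField K] {B : HeightOneSpectrum (𝓞 K) → ℝ[X]} {i D : ℕ}
  {c ρ ρ' m : ℝ}

theorem eul (h0 : ∀ v, (B v).coeff 0 = 1) (hD : ∀ v, (B v).natDegree ≤ D) (hp : IsPure B i)
    (hc : ((i : ℝ) + 1) / 2 ≤ c) : Eul B D c where
  const := h0
  deg := hD
  root := fun v ρ hρ => by
    refine le_trans ?_ (hp v ρ hρ)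
    have h2 : (1 : ℝ) ≤ Pool.Agent.H921R2.TatePole.nm v := by
      have := Pool.Agent.H921R2.TatePole.two_le_nm v
      exact_mod_cast (by omega : 1 ≤ Pool.Agent.H921R2.TatePole.nm v)
    exact Real.rpow_le_rpow_of_exponent_le h2 (by linarith)

theorem localSum_eq (h : Eul B D c) (ρ ρ' X : ℝ) :
    localSum B c ρ ρ' X = SrE nmK (alB B D c) ρ ρ' X := by
  unfold localSum SrE
  refine finsum_congr fun v => finsum_congr fun _ => ?_
  rw [h.cv_eq]
  rfl

theorem slow_iff' (h : Eul B D c) : SlowGrowth B c ρ ρ' ↔ Slow nmK (alB B D c) ρ ρ' := by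
  unfold SlowGrowth Slow
  simp only [localSum_eq h]

theorem sector_eq (c ρ : ℝ) : Sector c ρ = {s : ℂ | s - c ∈ Sect ρ} := by
  ext s
  simp only [Sector, Sect, Set.mem_ofPred_eq, ne_eq, sub_eq_zero]

/-- from the system to the `L`-function -/
theorem to_cont (h₀ : Eul B D (((i : ℝ) + 1) / 2)) (h : Eul B D c) {U : Set ℂ} (hU : IsOpen U)
    (hUc : Convex ℝ U) (hx : ∀ x : ℝ, 0 < x → (x : ℂ) ∈ U) {G : ℂ → ℂ}
    (hG : ZF nmK (alB B D c) U G) :
    ∃ G' : ℂ → ℂ, ZeroFreeContinuation B i {s | s - c ∈ U} G' ∧ ∀ x : ℝ, 0 < x → G' (c + x) = G x := by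
  have e : ((i : ℝ) + 1) / 2 + 1 / 2 = (i : ℝ) / 2 + 1 := by ring
  obtain ⟨G', h1, h2, h3⟩ := glue_L h₀ h hU hUc hx hG
  rw [e] at h1 h2
  refine ⟨G', ⟨h1, h2⟩, fun x hx' => ?_⟩
  rw [h3 _ (by
    rw [add_sub_cancel_left]
    exact hx x hx'), add_sub_cancel_left]

/-- from the `L`-function to the system -/
theorem from_cont (h : Eul B D c) (hc : ((i : ℝ) + 1) / 2 ≤ c) {U : Set ℂ} {G : ℂ → ℂ}
    (hG : ZeroFreeContinuation B i {s | s - c ∈ U} G) :
    ZF nmK (alB B D c) U (fun s => G (c + s)) := by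
  have hre : ∀ s : ℂ, 1 / 2 < s.re → (i : ℝ) / 2 + 1 < ((c : ℂ) + s).re := fun s hs => by
    rw [Complex.add_re, Complex.ofReal_re]
    linarith
  constructor
  · intro s hs
    have h1 := hG.1 (c + s) (hs.imp (fun h' => by
      rw [Set.mem_ofPred_eq, add_sub_cancel_left]
      exact h') (hre s))
    exact ⟨DifferentiableAt.comp (f := fun z : ℂ => (c : ℂ) + z) s h1.1 (by fun_prop), h1.2⟩
  · intro s hs
    have h1 := hG.2 _ (hre s hs)
    simp only [h1, h.LE_eq]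
    rfl

theorem half_eq (c : ℝ) : {s : ℂ | c < s.re} = {s : ℂ | s - c ∈ {z : ℂ | 0 < z.re}} := by
  ext s
  simp only [Set.mem_ofPred_eq, Complex.sub_re, Complex.ofReal_re, sub_pos]

end proofs

/-- **Zero-free continuation of `L(H^i(X), s)` in terms of the numbers of points.** -/
theorem result (K : Type) [Field K] [NumberField K] {n : ℕ} (X : Set (MvPolynomial (Fin n) (𝓞 K)))
    (d i N : ℕ) (B : HeightOneSpectrum (𝓞 K) → ℝ[X]) (hB : IsEulerSystem X d i N B)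
    (hpure : IsPure B i) (c : ℝ) (hc : ((i : ℝ) + 1) / 2 ≤ c) :
    (∀ ρ ρ' : ℝ, 1 < ρ → ρ < ρ' →
      (SlowGrowth B c ρ ρ' ↔ ∃ G : ℂ → ℂ, ZeroFreeContinuation B i (Sector c ρ) G)) ∧
    ((∀ ρ ρ' : ℝ, 1 < ρ → ρ < ρ' → SlowGrowth B c ρ ρ') ↔
      ∃ G : ℂ → ℂ, ZeroFreeContinuation B i {s | c < s.re} G) ∧
    ∀ ρ ρ' m : ℝ, 1 < ρ → ρ < ρ' →
      (∃ C : ℝ, ∀ᶠ X : ℝ in atTop, |localSum B c ρ ρ' X - m * Real.log (Real.log X)| ≤ C) →
        ∃ G : ℂ → ℂ, ZeroFreeContinuation B i (Sector c ρ) G ∧ HasSize G c m := by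
  obtain ⟨N', ⟨β₀, E⟩, -⟩ := hB.ldata
  have h₀ : Pool.Agent.TH270.SH.Eul B N' (((i : ℝ) + 1) / 2) :=
    eul hB.const (fun v => E.deg v) hpure le_rfl
  have h : Pool.Agent.TH270.SH.Eul B N' c := eul hB.const (fun v => E.deg v) hpure hc
  have hs : ∀ ρ : ℝ, 1 < ρ → ∀ G : ℂ → ℂ,
      Pool.Agent.TH270.SH.ZF Pool.Agent.TH270.SH.nmK (Pool.Agent.TH270.SH.alB B N' c)
        (Pool.Agent.TH942.SL.Sect ρ) G →
      ∃ G' : ℂ → ℂ, ZeroFreeContinuation B i (Sector c ρ) G' ∧ ∀ x : ℝ, 0 < x → G' (c + x) = G x := by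
    intro ρ hρ G hG
    rw [sector_eq]
    exact to_cont h₀ h (Pool.Agent.TH942.SL.sect_open hρ) (Pool.Agent.TH942.SL.sect_convex hρ)
      (fun x hx => Pool.Agent.TH942.SL.sect_real hρ hx) hG
  refine ⟨fun ρ ρ' hρ hρ' => ?_, ?_, fun ρ ρ' m hρ hρ' hl => ?_⟩
  · rw [slow_iff' h, Pool.Agent.TH270.SH.slow_iff h.sys hρ hρ']
    constructor
    · rintro ⟨G, hG⟩
      obtain ⟨G', h1, -⟩ := hs ρ hρ G hG
      exact ⟨G', h1⟩
    · rintro ⟨G, hG⟩
      rw [sector_eq] at hG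
      exact ⟨_, from_cont h hc hG⟩
  · simp only [slow_iff' h]
    rw [Pool.Agent.TH270.SH.slow_all_iff h.sys, half_eq c]
    constructor
    · rintro ⟨G, hG⟩
      obtain ⟨G', h1, -⟩ := to_cont h₀ h
        (isOpen_lt continuous_const Complex.continuous_re) (convex_halfSpace_re_gt 0)
        (fun x hx => by rwa [Set.mem_ofPred_eq, Complex.ofReal_re]) hG
      exact ⟨G', h1⟩
    · rintro ⟨G, hG⟩
      exact ⟨_, from_cont h hc hG⟩
  · obtain ⟨C, hC⟩ := hl
    have hg : Pool.Agent.TH270.SH.Gr Pool.Agent.TH270.SH.nmK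
        (Pool.Agent.TH270.SH.alB B N' c) ρ ρ' m := by
      refine ⟨max C 0, le_max_right _ _, hC.mono fun X hX => ?_⟩
      rw [← localSum_eq h]
      exact hX.trans (le_max_left _ _)
    obtain ⟨G, h1, A₁, A₂, hA₁, hA₂, h2⟩ := Pool.Agent.TH270.SH.Gr.cont h.sys hρ hρ' hg
    obtain ⟨G', h3, h4⟩ := hs ρ hρ G h1
    refine ⟨G', h3, A₁, A₂, hA₁, hA₂, fun x hx hx1 => ?_⟩
    rw [h4 x hx]
    exact h2 x hx hx1

end Pool.Agent.Results.MP_039d94_nt.SectorContinuation
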