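import Pool.Agent.TH958.BV.Main

/-!
# Boundary values of the L-functions of all projective varieties over all number fields

One exceptional set of Hausdorff dimension zero, the same for all smooth projective varieties over
all number fields and all cohomology degrees: outside it the Euler product of `L(H^i(X), s)`
converges on the edge `Re s = i/2 + 1` of the half-plane of absolute convergence to a number
different from zero, which is the boundary value of `L(H^i(X), s)` in every angle.

The definitions are in `Pool/Agent/TH958/BV/Defs.lean`.  No continuation, no modularity and no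
automorphy is used or assumed.
-/

set_option autoImplicit false

namespace Pool.Agent.Results.MP_039d94_nt.UniversalBoundaryValues

open NumberField IsDedekindDomain Filter Topology Polynomial Pool.Agent.TH958.BV

/-- **Universal boundary values.**  There is a set `T` of real numbers of Hausdorff dimension `0`
such that for every real `τ ∉ T`, every number field `K`, every projective variety `X` of dimension
`d` over `K`, every `i ≤ 2 d` and every system `B` of Euler factors of `L(H^i(X), s)` there is a
complex number `l ≠ 0` with the following properties.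

* The product of the Euler factors at `s = i/2 + 1 + iτ` over the primes of `K` of norm less than
  `x` tends to `l` as `x → ∞`.
* `L(H^i(X), s)` tends to `l` as `s` tends to `i/2 + 1 + iτ` in any angle in the half-plane
  `Re s > i/2 + 1` of absolute convergence. -/
theorem result : ∃ T : Set ℝ, dimH T = 0 ∧
    ∀ (K : Type) [Field K] [NumberField K] (n : ℕ) (X : Set (MvPolynomial (Fin n) (𝓞 K)))
      (d i N : ℕ) (_ : i ≤ 2 * d) (B : HeightOneSpectrum (𝓞 K) → ℂ[X])
      (_ : IsEulerSystem X d i N B) (τ : ℝ) (_ : τ ∉ T), ∃ l : ℂ, l ≠ 0 ∧
        Tendsto (fun x : ℕ => ∏ᶠ v ∈ {v : HeightOneSpectrum (𝓞 K) | Ideal.absNorm v.asIdeal < x},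
          localFactor B v (edgePoint i τ)) atTop (𝓝 l) ∧
        ∀ C : ℝ, Tendsto (LFun B) (𝓝[angle i τ C] (edgePoint i τ)) (𝓝 l) := by
  refine ⟨TT, dimH_TT, ?_⟩
  intro K _ _ n X d i N hi B hB τ hτ
  obtain ⟨l, h1, h2, h3⟩ := universal X d i N hi B hB τ hτ
  refine ⟨l, h1, h2.congr fun x => ?_, h3⟩
  have hf : {v : HeightOneSpectrum (𝓞 K) | Ideal.absNorm v.asIdeal < x}.Finite :=
    Pool.Agent.W350.EdgeNF.hfin x
  rw [finprod_mem_eq_finite_toFinset_prod _ hf]
  rfl

end Pool.Agent.Results.MP_039d94_nt.UniversalBoundaryValues
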